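import Mathlib

/-!
# Central extensions of Coxeter groups by a sign

For every Coxeter group `(W, S)` and every sign choice `c` the sequence
`1 → ℤ/2 → W' → W → 1` is exact.  The group `W'` acts on `W × (⊕_W 𝔽₂) × C`, where `C` is
a Clifford algebra in which the products of two generators are rotations by the angles `π/m` or
`2π/m`; this allows arbitrary signs for the pairs with `m ≥ 3` but forces the sign `-1` for
`m = 2`.  The middle factor corrects the signs for `m = 2` by a family of commuting or
anticommuting involutions indexed by the reflections.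
-/

namespace Pool.Agent.Results.MP_07fa45_al.SignExtensionExact

open FreeGroup (of)

variable {B : Type}

/-! ### The statement -/

/-- `(s, t) ∈ 𝔐`: the pairs of distinct generators with `m s t < ∞`
(Mathlib encodes `∞` by `0`). -/
def Pair (M : CoxeterMatrix B) (s t : B) : Prop := s ≠ t ∧ M s t ≠ 0

/-- `(s, t) ∼ (s', t')`: simultaneous conjugacy in `W`. -/
def Sim (M : CoxeterMatrix B) (s t s' t' : B) : Prop :=
  ∃ g : M.Group, g * M.simple s * g⁻¹ = M.simple s' ∧ g * M.simple t * g⁻¹ = M.simple t'

/-- Sign choices. -/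
structure IsSignChoice (M : CoxeterMatrix B) (c : B → B → ℤˣ) : Prop where
  conj : ∀ s t s' t', Pair M s t → Pair M s' t' → Sim M s t s' t' → c s t = c s' t'
  symm : ∀ s t, Pair M s t → c s t = c t s

/-- The relators of `W'`; the generator `q` is `none`. -/
def rels (M : CoxeterMatrix B) (c : B → B → ℤˣ) : Set (FreeGroup (Option B)) :=
  {r | (∃ s : B, r = of (some s) ^ 2) ∨ r = of none ^ 2 ∨
    (∃ s : B, r = of none * of (some s) * (of (some s) * of none)⁻¹) ∨
    (∃ s t : B, Pair M s t ∧ c s t = 1 ∧ r = (of (some s) * of (some t)) ^ (M s t)) ∨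
    (∃ s t : B, Pair M s t ∧ c s t = -1 ∧
      r = (of (some s) * of (some t)) ^ (M s t) * (of none)⁻¹)}

/-- The group `W'`. -/
abbrev W' (M : CoxeterMatrix B) (c : B → B → ℤˣ) : Type := PresentedGroup (rels M c)

/-- The element `q` of `W'`. -/
def q (M : CoxeterMatrix B) (c : B → B → ℤˣ) : W' M c := PresentedGroup.of none

theorem simple_sq (M : CoxeterMatrix B) (s : B) : M.simple s * M.simple s = 1 :=
  M.toCoxeterSystem.simple_mul_simple_self s

/-- The images of the generators of `W'` in `W`. -/
def projGen (M : CoxeterMatrix B) : Option B → M.Group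
  | some s => M.simple s
  | none => 1

theorem projGen_rel (M : CoxeterMatrix B) (c : B → B → ℤˣ) : ∀ r ∈ rels M c,
    FreeGroup.lift (projGen M) r = 1 := by
  have h : ∀ s t, (M.simple s * M.simple t) ^ (M s t) = 1 :=
    fun s t => M.toCoxeterSystem.simple_mul_simple_pow s t
  rintro r (⟨s, rfl⟩ | rfl | ⟨s, rfl⟩ | ⟨s, t, -, -, rfl⟩ | ⟨s, t, -, -, rfl⟩)
  · simp [projGen, pow_two, simple_sq]
  · simp [projGen]
  · simp [projGen]
  · simp [projGen, h]
  · simp [projGen, h]

/-- The projection `π : W' → W`. -/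
def proj (M : CoxeterMatrix B) (c : B → B → ℤˣ) : W' M c →* M.Group :=
  PresentedGroup.toGroup (projGen_rel M c)

theorem q_sq (M : CoxeterMatrix B) (c : B → B → ℤˣ) : q M c ^ 2 = 1 := by
  have h : (PresentedGroup.mk (rels M c)) (of none ^ 2) = 1 :=
    PresentedGroup.one_of_mem (Or.inr (Or.inl rfl))
  rw [map_pow] at h
  exact h

/-- The map `ι : ℤ/2 → W'` which sends the generator to `q`. -/
def incl (M : CoxeterMatrix B) (c : B → B → ℤˣ) : Multiplicative (ZMod 2) →* W' M c :=
  MonoidHom.mk' (fun x => q M c ^ (Multiplicative.toAdd x).val) (by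
    intro x y
    rw [← pow_add, toAdd_mul, ZMod.val_add]
    exact (pow_eq_pow_mod _ (q_sq M c)).symm)

/-! ### Clifford algebras: arbitrary signs for `m ≥ 3`, the sign `-1` for `m = 2` -/

/-- rotations -/
theorem rot {C : Type} [Ring C] [Algebra ℝ C] (p : C) (θ : ℝ)
    (h : p * p = (2 * Real.cos θ) • p - 1) (n : ℕ) :
    Real.sin θ • p ^ n = Real.sin (n * θ) • p - Real.sin ((n - 1) * θ) • (1 : C) := by
  induction n with
  | zero => simp
  | succ n ih =>
    have e1 : Real.sin (((n + 1 : ℕ) : ℝ) * θ) =
        2 * Real.sin (n * θ) * Real.cos θ - Real.sin ((n - 1) * θ) := by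
      push_cast
      have h1 : ((n : ℝ) + 1) * θ = n * θ + θ := by ring
      have h2 : ((n : ℝ) - 1) * θ = n * θ - θ := by ring
      rw [h1, h2, Real.sin_add, Real.sin_sub]
      ring
    rw [pow_succ, ← smul_mul_assoc, ih, sub_mul, smul_mul_assoc, h, smul_mul_assoc, one_mul, e1]
    push_cast
    rw [add_sub_cancel_right, smul_sub, smul_smul, sub_smul, sub_sub, sub_sub]
    congr 1
    · congr 1; ring
    · rw [add_comm]

theorem rot_one {C : Type} [Ring C] [Algebra ℝ C] (p : C) (m : ℕ) (hm : 2 ≤ m)
    (h : p * p = (2 * Real.cos (Real.pi * 1 / m)) • p - 1) : p ^ m = -1 := by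
  have hm0 : (m : ℝ) ≠ 0 := by positivity
  have hm2 : (2 : ℝ) ≤ m := by exact_mod_cast hm
  have h1 := rot p _ h m
  have h2 : (m : ℝ) * (Real.pi * 1 / m) = Real.pi := by field_simp
  have h3 : ((m : ℝ) - 1) * (Real.pi * 1 / m) = Real.pi - Real.pi * 1 / m := by field_simp
  have hs : 0 < Real.sin (Real.pi * 1 / m) := by
    apply Real.sin_pos_of_pos_of_lt_pi
    · have := Real.pi_pos; positivity
    · rw [div_lt_iff₀ (by positivity)]
      have := Real.pi_pos
      nlinarith
  rw [h2, h3, Real.sin_pi_sub, Real.sin_pi, zero_smul, zero_sub, ← smul_neg] at h1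
  have h4 := congrArg (fun x => (Real.sin (Real.pi * 1 / m))⁻¹ • x) h1
  rwa [inv_smul_smul₀ hs.ne', inv_smul_smul₀ hs.ne'] at h4

theorem rot_two {C : Type} [Ring C] [Algebra ℝ C] (p : C) (m : ℕ) (hm : 3 ≤ m)
    (h : p * p = (2 * Real.cos (Real.pi * 2 / m)) • p - 1) : p ^ m = 1 := by
  have hm0 : (m : ℝ) ≠ 0 := by positivity
  have hm2 : (3 : ℝ) ≤ m := by exact_mod_cast hm
  have h1 := rot p _ h m
  have h2 : (m : ℝ) * (Real.pi * 2 / m) = 2 * Real.pi := by field_simp
  have h3 : ((m : ℝ) - 1) * (Real.pi * 2 / m) = 2 * Real.pi - Real.pi * 2 / m := by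
    field_simp
  have hs : 0 < Real.sin (Real.pi * 2 / m) := by
    apply Real.sin_pos_of_pos_of_lt_pi
    · have := Real.pi_pos; positivity
    · rw [div_lt_iff₀ (by positivity)]
      have := Real.pi_pos
      nlinarith
  rw [h2, h3, Real.sin_two_pi_sub, Real.sin_two_pi, zero_smul, zero_sub, neg_smul, neg_neg] at h1
  have h4 := congrArg (fun x => (Real.sin (Real.pi * 2 / m))⁻¹ • x) h1
  rwa [inv_smul_smul₀ hs.ne', inv_smul_smul₀ hs.ne'] at h4

theorem off_ge (M : CoxeterMatrix B) (s t : B) (h : s ≠ t) (h0 : M s t ≠ 0) : 2 ≤ M s t := by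
  have := M.off_diagonal s t h
  omega

/-- the Clifford algebra -/
theorem clifford (M : CoxeterMatrix B) (k : B → B → Bool) (hk : ∀ s t, k s t = k t s)
    (h2 : ∀ s t, M s t = 2 → k s t = true) :
    ∃ (C : Type) (_ : Ring C) (e : B → C), (1 : C) + 1 ≠ 0 ∧ (∀ s, e s * e s = 1) ∧
      (∀ s t, M s t = 2 → e s * e t = - (e t * e s)) ∧
      ∀ s t, s ≠ t → M s t ≠ 0 → (e s * e t) ^ (M s t) = if k s t then -1 else 1 := by
  classical
  let A : B → B → ℝ := fun s t => if s = t then 1 else
    Real.cos (Real.pi * (if k s t then 1 else 2) / M s t)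
  have hA : ∀ s t, A s t = A t s := by
    intro s t
    by_cases h : s = t
    · subst h; rfl
    · simp only [A, if_neg h, if_neg (Ne.symm h), hk s t, M.symmetric s t]
  let β : (B →₀ ℝ) →ₗ[ℝ] (B →₀ ℝ) →ₗ[ℝ] ℝ :=
    Finsupp.linearCombination ℝ (fun s => Finsupp.linearCombination ℝ (fun t => A s t))
  have hβ : ∀ s t, β (Finsupp.single s 1) (Finsupp.single t 1) = A s t := by
    intro s t; simp [β]
  let Q : QuadraticForm ℝ (B →₀ ℝ) := LinearMap.BilinMap.toQuadraticMap β
  let e : B → CliffordAlgebra Q := fun s => CliffordAlgebra.ι Q (Finsupp.single s 1)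
  have he : ∀ s, e s * e s = 1 := by
    intro s
    rw [CliffordAlgebra.ι_sq_scalar]
    have : Q (Finsupp.single s 1) = 1 := by
      change β (Finsupp.single s 1) (Finsupp.single s 1) = 1
      rw [hβ]; simp [A]
    rw [this, map_one]
  have hadd : ∀ s t, e s * e t + e t * e s = algebraMap ℝ _ (2 * A s t) := by
    intro s t
    rw [CliffordAlgebra.ι_mul_ι_add_swap]
    congr 1
    have : QuadraticMap.polar Q (Finsupp.single s 1) (Finsupp.single t 1) =
        β (Finsupp.single s 1) (Finsupp.single t 1) +
        β (Finsupp.single t 1) (Finsupp.single s 1) := by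
      unfold QuadraticMap.polar
      change β (Finsupp.single s 1 + Finsupp.single t 1) (Finsupp.single s 1 + Finsupp.single t 1) -
        β (Finsupp.single s 1) (Finsupp.single s 1) -
        β (Finsupp.single t 1) (Finsupp.single t 1) = _
      simp only [map_add, LinearMap.add_apply]
      ring
    rw [this, hβ, hβ, hA t s]
    ring
  refine ⟨CliffordAlgebra Q, inferInstance, e, ?_, he, ?_, ?_⟩
  · intro h
    have h1 : (2 : ℝ)⁻¹ • ((1 : CliffordAlgebra Q) + 1) = 1 := by
      rw [← two_smul ℝ (1 : CliffordAlgebra Q), smul_smul]; norm_num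
    rw [h, smul_zero] at h1
    exact zero_ne_one h1
  · intro s t hst
    have hne : s ≠ t := by
      rintro rfl
      rw [M.diagonal] at hst
      omega
    have h3 := hadd s t
    have h4 : A s t = 0 := by
      simp only [A, if_neg hne, h2 s t hst, hst]
      norm_num
    rw [h4] at h3
    rw [eq_neg_iff_add_eq_zero, h3]
    simp
  · intro s t hne h0
    have hge := off_ge M s t hne h0
    have hp : (e s * e t) * (e s * e t) = (2 * A s t) • (e s * e t) - 1 := by
      have h3 := hadd s t
      have h5 : (e s * e t + e t * e s) * (e s * e t) = (e s * e t) * (e s * e t) + 1 := by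
        rw [add_mul]
        congr 1
        rw [mul_assoc, ← mul_assoc (e s) (e s), he, one_mul, he]
      rw [h3, ← Algebra.smul_def] at h5
      rw [h5]; abel
    have hAst : A s t = Real.cos (Real.pi * (if k s t then 1 else 2) / M s t) := by
      simp only [A, if_neg hne]
    by_cases hkk : k s t = true
    · rw [if_pos hkk]
      rw [hAst, if_pos hkk] at hp
      exact rot_one _ _ hge hp
    · rw [if_neg hkk]
      rw [hAst, if_neg hkk] at hp
      have : M s t ≠ 2 := fun h => hkk (h2 s t h)
      exact rot_two _ _ (by omega) hp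

/-- simple reflections which commute and are distinct as generators are distinct elements -/
theorem simple_ne (M : CoxeterMatrix B) (s t : B) (h : M s t = 2) : M.simple s ≠ M.simple t := by
  obtain ⟨C, _, e, h1, h2, h3, h4⟩ := clifford M (fun _ _ => true) (fun _ _ => rfl)
    (fun _ _ _ => rfl)
  have hinv : ∀ s, Function.Involutive (fun y : C => e s * y * e s) := by
    intro s y
    simp only
    rw [← mul_assoc, ← mul_assoc, h2, one_mul, mul_assoc, h2, mul_one]
  let f : B → Equiv.Perm C := fun s => (hinv s).toPerm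
  have hf : M.IsLiftable f := by
    intro s t
    have key : ∀ (n : ℕ) (y : C), ((f s * f t) ^ n) y = (e s * e t) ^ n * y * (e t * e s) ^ n := by
      intro n
      induction n with
      | zero => intro y; simp
      | succ n ih =>
        intro y
        rw [pow_succ', Equiv.Perm.mul_apply, ih, Equiv.Perm.mul_apply]
        change e s * (e t * _ * e t) * e s = _
        rw [pow_succ' (e s * e t), pow_succ (e t * e s)]
        simp only [mul_assoc]
    have hcon : ∀ n : ℕ, (e s * e t) ^ n * (e t * e s) ^ n = 1 := by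
      intro n
      induction n with
      | zero => simp
      | succ n ih =>
        rw [pow_succ (e s * e t), pow_succ' (e t * e s)]
        have : (e s * e t) ^ n * (e s * e t) * (e t * e s * (e t * e s) ^ n) =
            (e s * e t) ^ n * (e s * (e t * e t) * e s) * (e t * e s) ^ n := by
          simp only [mul_assoc]
        rw [this, h2, mul_one, h2, mul_one, ih]
    apply Equiv.ext
    intro y
    rw [key]
    by_cases h0 : M s t = 0
    · rw [h0]; simp
    · by_cases hne : s = t
      · subst hne
        rw [M.diagonal, pow_one, h2]; simp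
      · have h5 := h4 s t hne h0
        rw [if_pos rfl] at h5
        have h6 := hcon (M s t)
        rw [h5, neg_one_mul] at h6
        have h7 : (e t * e s) ^ (M s t) = -1 := by rw [← h6, neg_neg]
        rw [h5, h7]
        simp
  intro heq
  let F := M.toCoxeterSystem.lift ⟨f, hf⟩
  have hF : ∀ s, F (M.simple s) = f s := fun s => M.toCoxeterSystem.lift_apply_simple hf s
  have h5 : f s (e s) = f t (e s) := by rw [← hF, ← hF, heq]
  have h6 : e s * e s * e s = e t * e s * e t := h5
  rw [h2, one_mul] at h6
  have h7 : e t * e s = - (e s * e t) := by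
    rw [h3 s t h, neg_neg]
  rw [h7, neg_mul, mul_assoc, h2, mul_one] at h6
  have h8 : e s * e s = -(e s * e s) := by
    nth_rewrite 1 [h6]
    rw [neg_mul]
  rw [h2, eq_neg_iff_add_eq_zero] at h8
  exact h1 h8

/-! ### Involutions indexed by the group -/

section invol

variable {W : Type} (K : W → W → Prop)

open Classical in
/-- half of the commutation relation -/
noncomputable def bb (r r' : W) : ZMod 2 := if K r r' ∧ WellOrderingRel r' r then 1 else 0

/-- the bilinear form -/
noncomputable def bet : (W →₀ ZMod 2) →ₗ[ZMod 2] (W →₀ ZMod 2) →ₗ[ZMod 2] ZMod 2 :=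
  Finsupp.linearCombination (ZMod 2)
    (fun r => Finsupp.linearCombination (ZMod 2) (fun r' => bb K r r'))

theorem bet_single (r r' : W) : bet K (Finsupp.single r 1) (Finsupp.single r' 1) = bb K r r' := by
  simp [bet]

theorem bb_self (r : W) : bb K r r = 0 := by
  unfold bb
  rw [if_neg]
  rintro ⟨-, h⟩
  exact irrefl_of WellOrderingRel r h

/-- the commutation form -/
noncomputable def kap (r r' : W) : ZMod 2 := bb K r r' + bb K r' r

theorem kap_eq_one (hK : ∀ r r', K r r' → K r' r) {r r' : W} (h : r ≠ r') (h' : K r r') :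
    kap K r r' = 1 := by
  unfold kap bb
  rcases trichotomous_of WellOrderingRel r r' with h1 | h1 | h1
  · have h2 : ¬ WellOrderingRel r' r := asymm_of WellOrderingRel h1
    rw [if_neg (fun h => h2 h.2), if_pos ⟨hK _ _ h', h1⟩, zero_add]
  · exact absurd h1 h
  · have h2 : ¬ WellOrderingRel r r' := asymm_of WellOrderingRel h1
    rw [if_pos ⟨h', h1⟩, if_neg (fun h => h2 h.2), add_zero]

theorem kap_eq_zero (hK : ∀ r r', K r r' → K r' r) {r r' : W} (h' : ¬ K r r') :
    kap K r r' = 0 := by
  unfold kap bb
  rw [if_neg (fun h => h' h.1), if_neg (fun h => h' (hK _ _ h.1)), add_zero]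

theorem kap_map (hK : ∀ r r', K r r' → K r' r) (f : W → W) (hf : Function.Injective f)
    (hfK : ∀ r r', K (f r) (f r') ↔ K r r') (r r' : W) : kap K (f r) (f r') = kap K r r' := by
  by_cases h : r = r'
  · subst h
    have h2 : ∀ x : ZMod 2, x + x = 0 := by decide
    unfold kap
    rw [h2, h2]
  · by_cases h' : K r r'
    · rw [kap_eq_one K hK h h', kap_eq_one K hK (fun e => h (hf e)) ((hfK r r').2 h')]
    · rw [kap_eq_zero K hK h', kap_eq_zero K hK (fun e => h' ((hfK r r').1 e))]

/-- the vector of a list -/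
noncomputable def vec : List W → (W →₀ ZMod 2)
  | [] => 0
  | r :: l => Finsupp.single r 1 + vec l

/-- number of noncommuting pairs -/
noncomputable def nK : List W → ZMod 2
  | [] => 0
  | r :: l => (l.map (kap K r)).sum + nK l

theorem bet_vec (r : W) (l : List W) : bet K (Finsupp.single r 1) (vec l) +
    bet K (vec l) (Finsupp.single r 1) = (l.map (kap K r)).sum := by
  induction l with
  | nil => simp [vec]
  | cons r' l ih =>
    rw [vec, map_add, map_add, LinearMap.add_apply, bet_single, bet_single, List.map_cons,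
      List.sum_cons, ← ih, kap]
    abel

theorem bet_self (l : List W) : bet K (vec l) (vec l) = nK K l := by
  induction l with
  | nil => simp [vec, nK]
  | cons r l ih =>
    rw [nK, ← bet_vec, ← ih, vec]
    simp only [map_add, LinearMap.add_apply]
    rw [bet_single, bb_self]
    abel

theorem nK_map (hK : ∀ r r', K r r' → K r' r) (f : W → W) (hf : Function.Injective f)
    (hfK : ∀ r r', K (f r) (f r') ↔ K r r') (l : List W) : nK K (l.map f) = nK K l := by
  induction l with
  | nil => rfl
  | cons r l ih =>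
    rw [List.map_cons, nK, nK, ih, List.map_map]
    congr 3
    funext r'
    exact kap_map K hK f hf hfK r r'

variable {C : Type} [Ring C]

/-- signs -/
def sg (x : ZMod 2) : C := if x = 0 then 1 else -1

theorem sg_add (x y : ZMod 2) : (sg (x + y) : C) = sg x * sg y := by
  have h : ∀ x : ZMod 2, x = 0 ∨ x = 1 := by decide
  have h1 : (1 : ZMod 2) + 1 = 0 := by decide
  have h2 : (1 : ZMod 2) ≠ 0 := by decide
  rcases h x with rfl | rfl <;> rcases h y with rfl | rfl <;> simp [sg, h1]

theorem sg_comm (x : ZMod 2) (y : C) : sg x * y = y * sg x := by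
  unfold sg
  split_ifs <;> simp

/-- the action of an involution -/
noncomputable def X (r : W) (z : (W →₀ ZMod 2) × C) : (W →₀ ZMod 2) × C :=
  (z.1 + Finsupp.single r 1, sg (bet K (Finsupp.single r 1) z.1) * z.2)

/-- the action of a product of involutions -/
noncomputable def app (l : List W) (z : (W →₀ ZMod 2) × C) : (W →₀ ZMod 2) × C :=
  l.foldr (X K) z

/-- the correction -/
noncomputable def nu : List W → ZMod 2
  | [] => 0
  | r :: l => nu l + bet K (Finsupp.single r 1) (vec l)

theorem app_eq (l : List W) (z : (W →₀ ZMod 2) × C) :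
    app K l z = (z.1 + vec l, sg (bet K (vec l) z.1 + nu K l) * z.2) := by
  induction l with
  | nil => simp [app, vec, nu, sg]
  | cons r l ih =>
    have : app K (r :: l) z = X K r (app K l z) := rfl
    rw [this, ih]
    refine Prod.ext ?_ ?_
    · simp only [X, vec]
      abel
    · simp only [X, vec, nu]
      rw [← mul_assoc, ← sg_add]
      congr 2
      simp only [map_add, LinearMap.add_apply]
      abel

theorem add_self_zmod (x : ZMod 2) : x + x = 0 := by
  revert x; decide

theorem add_self_vec (u : W →₀ ZMod 2) : u + u = 0 := by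
  ext r
  simp [add_self_zmod]

theorem app_app (l : List W) (z : (W →₀ ZMod 2) × C) :
    app K l (app K l z) = (z.1, sg (nK K l) * z.2) := by
  rw [app_eq, app_eq]
  refine Prod.ext ?_ ?_
  · simp only
    rw [add_assoc, add_self_vec, add_zero]
  · simp only
    rw [← mul_assoc, ← sg_add, ← bet_self]
    congr 2
    rw [map_add]
    have h1 := add_self_zmod (bet K (vec l) z.1)
    have h2 := add_self_zmod (nu K l)
    have : bet K (vec l) z.1 + bet K (vec l) (vec l) + nu K l + (bet K (vec l) z.1 + nu K l) =
      (bet K (vec l) z.1 + bet K (vec l) z.1) + (nu K l + nu K l) +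
        bet K (vec l) (vec l) := by abel
    rw [this, h1, h2, zero_add, zero_add]

/-- left multiplication on the third factor -/
def lm (e : C) (z : (W →₀ ZMod 2) × C) : (W →₀ ZMod 2) × C := (z.1, e * z.2)

theorem lm_lm (e f : C) (z : (W →₀ ZMod 2) × C) : lm e (lm f z) = lm (e * f) z := by
  simp [lm, mul_assoc]

theorem X_lm (r : W) (e : C) (z : (W →₀ ZMod 2) × C) : X K r (lm e z) = lm e (X K r z) := by
  simp only [X, lm]
  rw [← mul_assoc, sg_comm, mul_assoc]

theorem X_X (r : W) (z : (W →₀ ZMod 2) × C) : X K r (X K r z) = z := by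
  have h := app_app K [r] z
  simp only [app, List.foldr_cons, List.foldr_nil] at h
  rw [h]
  simp [nK, sg]

variable [Group W]

/-- the action of a generator -/
noncomputable def act (s : W) (e : C) (z : W × ((W →₀ ZMod 2) × C)) :
    W × ((W →₀ ZMod 2) × C) :=
  (s * z.1, X K (z.1⁻¹ * s * z.1) (lm e z.2))

theorem act_act (s : W) (e : C) (hs : s * s = 1) (he : e * e = 1)
    (z : W × ((W →₀ ZMod 2) × C)) : act K s e (act K s e z) = z := by
  obtain ⟨g, z⟩ := z
  simp only [act]
  have h1 : (s * g)⁻¹ * s * (s * g) = g⁻¹ * s * g := by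
    rw [mul_inv_rev]
    have : s⁻¹ = s := inv_eq_of_mul_eq_one_left hs
    rw [this]
    calc g⁻¹ * s * s * (s * g) = g⁻¹ * (s * s) * s * g := by simp only [mul_assoc]
      _ = g⁻¹ * s * g := by rw [hs, mul_one]
  rw [h1, ← X_lm, lm_lm, he, X_X, ← mul_assoc, hs, one_mul]
  simp [lm]

/-- the list of conjugated reflections -/
def L (s t g : W) : ℕ → List W
  | 0 => []
  | n + 1 => (g⁻¹ * ((t * s) ^ n * t) * g) :: L s t g n

theorem L_map (s t g : W) (n : ℕ) : L s t g n = (L s t 1 n).map (fun r => g⁻¹ * r * g) := by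
  induction n with
  | zero => rfl
  | succ n ih =>
    rw [L, L, List.map_cons, ← ih]
    simp

theorem L_add (s t g : W) (m : ℕ) (h : (t * s) ^ m = 1) (n : ℕ) :
    L s t g (m + n) = L s t g n ++ L s t g m := by
  induction n with
  | zero => rfl
  | succ n ih =>
    rw [← add_assoc, L, L, ih, pow_add, h, one_mul, List.cons_append]

theorem swap_pow (s t : W) (hs : s * s = 1) (ht : t * t = 1) (n : ℕ) :
    ((s * t) ^ n)⁻¹ = (t * s) ^ n := by
  rw [← inv_pow, mul_inv_rev, inv_eq_of_mul_eq_one_left hs, inv_eq_of_mul_eq_one_left ht]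

theorem t_pow (s t : W) (n : ℕ) : t * (s * t) ^ n = (t * s) ^ n * t := by
  induction n with
  | zero => simp
  | succ n ih =>
    rw [pow_succ (s * t), ← mul_assoc, ih, pow_succ (t * s)]
    simp only [mul_assoc]

theorem iter (s t : W) (e f : C) (hs : s * s = 1) (ht : t * t = 1) (n : ℕ) (g : W)
    (z : (W →₀ ZMod 2) × C) :
    (fun x => act K s e (act K t f x))^[n] (g, z) =
      ((s * t) ^ n * g, app K (L s t g (2 * n)) (lm ((e * f) ^ n) z)) := by
  induction n with
  | zero => simp [L, app, lm]
  | succ n ih =>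
    rw [Function.iterate_succ_apply', ih]
    simp only [act]
    have h1 : ((s * t) ^ n * g)⁻¹ * t * ((s * t) ^ n * g) =
        g⁻¹ * ((t * s) ^ (2 * n) * t) * g := by
      rw [mul_inv_rev, swap_pow s t hs ht]
      calc g⁻¹ * (t * s) ^ n * t * ((s * t) ^ n * g)
          = g⁻¹ * (t * s) ^ n * (t * (s * t) ^ n) * g := by simp only [mul_assoc]
        _ = g⁻¹ * ((t * s) ^ (2 * n) * t) * g := by
          rw [t_pow, two_mul, pow_add]; simp only [mul_assoc]
    have h2 : (t * ((s * t) ^ n * g))⁻¹ * s * (t * ((s * t) ^ n * g)) =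
        g⁻¹ * ((t * s) ^ (2 * n + 1) * t) * g := by
      have ht' : t⁻¹ = t := inv_eq_of_mul_eq_one_left ht
      rw [mul_inv_rev, mul_inv_rev, swap_pow s t hs ht, ht']
      calc g⁻¹ * (t * s) ^ n * t * s * (t * ((s * t) ^ n * g))
          = g⁻¹ * ((t * s) ^ n * (t * s)) * (t * (s * t) ^ n) * g := by
            simp only [mul_assoc]
        _ = g⁻¹ * ((t * s) ^ (2 * n + 1) * t) * g := by
          rw [t_pow, ← pow_succ]
          have : 2 * n + 1 = (n + 1) + n := by ring
          rw [this, pow_add (t * s) (n + 1) n]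
          simp only [mul_assoc]
    rw [h1, h2]
    have h3 : L s t g (2 * (n + 1)) = (g⁻¹ * ((t * s) ^ (2 * n + 1) * t) * g) ::
        (g⁻¹ * ((t * s) ^ (2 * n) * t) * g) :: L s t g (2 * n) := rfl
    rw [h3]
    refine Prod.ext ?_ ?_
    · simp only
      rw [pow_succ']
      simp only [mul_assoc]
    · have h4 : ∀ (a b : W) (l : List W) (w : (W →₀ ZMod 2) × C),
          app K (a :: b :: l) w = X K a (X K b (app K l w)) := fun _ _ _ _ => rfl
      have h5 : ∀ (l : List W) (a : C) (w : (W →₀ ZMod 2) × C),
          app K l (lm a w) = lm a (app K l w) := by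
        intro l a w
        induction l with
        | nil => rfl
        | cons r l ih =>
          have e1 : ∀ w : (W →₀ ZMod 2) × C, app K (r :: l) w = X K r (app K l w) :=
            fun _ => rfl
          rw [e1, e1, ih, X_lm]
      simp only
      rw [h4, h5, h5]
      simp only [X_lm, lm_lm]
      rw [pow_succ' (e * f) n, mul_assoc e f]

/-- the value of `(ŝ t̂)^m` -/
theorem iter_m (hK : ∀ r r', K r r' → K r' r)
    (hKc : ∀ g r r', K (g⁻¹ * r * g) (g⁻¹ * r' * g) ↔ K r r')
    (s t : W) (e f : C) (hs : s * s = 1) (ht : t * t = 1) (m : ℕ)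
    (hm : (s * t) ^ m = 1) (g : W) (z : (W →₀ ZMod 2) × C) :
    (fun x => act K s e (act K t f x))^[m] (g, z) =
      (g, lm (sg (nK K (L s t 1 m)) * (e * f) ^ m) z) := by
  rw [iter K s t e f hs ht]
  have h1 : (t * s) ^ m = 1 := by rw [← swap_pow s t hs ht, hm, inv_one]
  rw [hm, one_mul, two_mul, L_add s t g m h1]
  refine Prod.ext rfl ?_
  simp only
  have h2 : ∀ w : (W →₀ ZMod 2) × C, app K (L s t g m ++ L s t g m) w =
      app K (L s t g m) (app K (L s t g m) w) := fun w => List.foldr_append
  have h3 : nK K (L s t g m) = nK K (L s t 1 m) := by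
    rw [L_map s t g m]
    apply nK_map K hK
    · intro a b hab
      exact mul_left_cancel (mul_right_cancel hab)
    · intro r r'
      exact hKc g r r'
  rw [h2, app_app, h3]
  simp [lm, mul_assoc]

end invol

/-! ### The main theorem -/

/-- the commutation relation of the correcting involutions -/
def KK (M : CoxeterMatrix B) (c : B → B → ℤˣ) (r r' : M.Group) : Prop :=
  ∃ (s t : B) (g : M.Group), M s t = 2 ∧ c s t = 1 ∧
    g * M.simple s * g⁻¹ = r ∧ g * M.simple t * g⁻¹ = r'

theorem ne_of_two {M : CoxeterMatrix B} {s t : B} (h : M s t = 2) : s ≠ t := by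
  rintro rfl
  rw [M.diagonal] at h
  omega

theorem pair_of_two {M : CoxeterMatrix B} {s t : B} (h : M s t = 2) : Pair M s t :=
  ⟨ne_of_two h, by rw [h]; norm_num⟩

theorem KK_symm {M : CoxeterMatrix B} {c : B → B → ℤˣ} (hc : IsSignChoice M c) (r r' : M.Group)
    (h : KK M c r r') : KK M c r' r := by
  obtain ⟨s, t, g, h1, h2, h3, h4⟩ := h
  exact ⟨t, s, g, by rw [M.symmetric]; exact h1, by rw [← hc.symm s t (pair_of_two h1)]; exact h2,
    h4, h3⟩

theorem KK_conj {M : CoxeterMatrix B} {c : B → B → ℤˣ} (g r r' : M.Group) :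
    KK M c (g⁻¹ * r * g) (g⁻¹ * r' * g) ↔ KK M c r r' := by
  constructor
  · rintro ⟨s, t, k, h1, h2, h3, h4⟩
    refine ⟨s, t, g * k, h1, h2, ?_, ?_⟩
    · calc g * k * M.simple s * (g * k)⁻¹ = g * (k * M.simple s * k⁻¹) * g⁻¹ := by group
        _ = r := by rw [h3]; group
    · calc g * k * M.simple t * (g * k)⁻¹ = g * (k * M.simple t * k⁻¹) * g⁻¹ := by group
        _ = r' := by rw [h4]; group
  · rintro ⟨s, t, k, h1, h2, rfl, rfl⟩
    exact ⟨s, t, g⁻¹ * k, h1, h2, by group, by group⟩

theorem q_ne_one (M : CoxeterMatrix B) (c : B → B → ℤˣ) (hc : IsSignChoice M c) :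
    q M c ≠ 1 := by
  classical
  have hu : ∀ x : ℤˣ, x = 1 ∨ x = -1 := Int.units_eq_one_or
  let n : B → B → ZMod 2 := fun s t => nK (KK M c) (L (M.simple s) (M.simple t) 1 (M s t))
  let kk : B → B → Bool := fun s t => decide (c s t = 1 ↔ n s t = 1)
  let k : B → B → Bool := fun s t => if M s t = 2 then true else
    if WellOrderingRel s t then kk s t else kk t s
  have hk : ∀ s t, k s t = k t s := by
    intro s t
    simp only [k, M.symmetric s t]
    by_cases h2 : M t s = 2
    · rw [if_pos h2, if_pos h2]
    · rw [if_neg h2, if_neg h2]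
      rcases trichotomous_of WellOrderingRel s t with h | h | h
      · have h' : ¬ WellOrderingRel t s := asymm_of WellOrderingRel h
        rw [if_pos h, if_neg h']
      · subst h; rfl
      · have h' : ¬ WellOrderingRel s t := asymm_of WellOrderingRel h
        rw [if_pos h, if_neg h']
  obtain ⟨C, _, e, h1, h2, -, h4⟩ := clifford M k hk (fun s t h => if_pos h)
  have hsimple : ∀ s t : B, (M.simple s * M.simple t) ^ (M s t) = 1 :=
    fun s t => M.toCoxeterSystem.simple_mul_simple_pow s t
  -- the permutations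
  let f : B → Equiv.Perm (M.Group × ((M.Group →₀ ZMod 2) × C)) := fun s =>
    Function.Involutive.toPerm (act (KK M c) (M.simple s) (e s))
      (act_act (KK M c) (M.simple s) (e s) (simple_sq M s) (h2 s))
  have hinvq : Function.Involutive
      (fun z : M.Group × ((M.Group →₀ ZMod 2) × C) => (z.1, lm (-1) z.2)) := by
    intro z
    simp [lm]
  let fq : Equiv.Perm (M.Group × ((M.Group →₀ ZMod 2) × C)) := hinvq.toPerm
  have hfsq : ∀ s, f s * f s = 1 := fun s =>
    Equiv.ext (act_act (KK M c) (M.simple s) (e s) (simple_sq M s) (h2 s))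
  have hqsq : fq * fq = 1 := Equiv.ext hinvq
  -- the relation for one ordering
  have hpow : ∀ (s t : B) (m : ℕ) (z : M.Group × ((M.Group →₀ ZMod 2) × C)),
      ((f s * f t) ^ m) z = (fun x => act (KK M c) (M.simple s) (e s)
        (act (KK M c) (M.simple t) (e t) x))^[m] z := by
    intro s t m z
    induction m with
    | zero => rfl
    | succ m ih => rw [pow_succ', Function.iterate_succ_apply', ← ih]; rfl
  have hval : ∀ (s t : B), Pair M s t →
      (sg (n s t) : C) * (if k s t then -1 else 1) = (if c s t = 1 then 1 else -1) →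
      (f s * f t) ^ (M s t) = if c s t = 1 then 1 else fq := by
    intro s t hp hs
    apply Equiv.ext
    rintro ⟨g, z⟩
    rw [hpow, iter_m (KK M c) (KK_symm hc) KK_conj _ _ _ _ (simple_sq M s) (simple_sq M t) _
      (hsimple s t), h4 s t hp.1 hp.2]
    change (g, lm (sg (n s t) * _) z) = _
    rw [hs]
    by_cases hcs : c s t = 1
    · rw [if_pos hcs, if_pos hcs]; simp [lm]
    · rw [if_neg hcs, if_neg hcs]; rfl
  have hz : ∀ x : ZMod 2, x = 0 ∨ x = 1 := by decide
  have h10 : (1 : ZMod 2) ≠ 0 := by decide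
  -- pairs with `m = 2`
  have htwo : ∀ s t : B, M s t = 2 →
      (sg (n s t) : C) * (if k s t then -1 else 1) = (if c s t = 1 then 1 else -1) := by
    intro s t hst
    have hkt : k s t = true := if_pos hst
    have hconj : M.simple t * M.simple s * M.simple t = M.simple s := by
      have h5 := hsimple t s
      rw [M.symmetric, hst, pow_two] at h5
      calc M.simple t * M.simple s * M.simple t
          = (M.simple t * M.simple s * (M.simple t * M.simple s)) * (M.simple s)⁻¹ := by group
        _ = M.simple s := by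
          rw [h5, one_mul, inv_eq_of_mul_eq_one_left (simple_sq M s)]
    have hn : n s t = kap (KK M c) (M.simple s) (M.simple t) := by
      simp only [n, hst, L, nK]
      simp [hconj]
    have hne : M.simple s ≠ M.simple t := simple_ne M s t hst
    rw [hkt, if_pos rfl, hn]
    by_cases hcs : c s t = 1
    · have hKK : KK M c (M.simple s) (M.simple t) := ⟨s, t, 1, hst, hcs, by simp, by simp⟩
      rw [kap_eq_one _ (KK_symm hc) hne hKK, if_pos hcs]
      simp [sg]
    · have hKK : ¬ KK M c (M.simple s) (M.simple t) := by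
        rintro ⟨s', t', g, h5, h6, h7, h8⟩
        apply hcs
        rw [← hc.conj s' t' s t (pair_of_two h5) (pair_of_two hst) ⟨g, h7, h8⟩]
        exact h6
      rw [kap_eq_zero _ (KK_symm hc) hKK, if_neg hcs]
      simp [sg]
  -- other pairs, first ordering
  have hbig : ∀ s t : B, Pair M s t → M s t ≠ 2 → WellOrderingRel s t →
      (sg (n s t) : C) * (if k s t then -1 else 1) = (if c s t = 1 then 1 else -1) := by
    intro s t hp hst hw
    have hkt : k s t = kk s t := by
      simp only [k]
      rw [if_neg hst, if_pos hw]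
    rw [hkt]
    have hkd : kk s t = decide (c s t = 1 ↔ n s t = 1) := rfl
    rw [hkd]
    rcases hz (n s t) with h | h <;> rcases hu (c s t) with h' | h' <;> rw [h, h'] <;>
      simp [sg]
  have hgood : ∀ s t : B, Pair M s t → (WellOrderingRel s t ∨ M s t = 2) →
      (f s * f t) ^ (M s t) = if c s t = 1 then 1 else fq := by
    intro s t hp h
    apply hval s t hp
    by_cases hst : M s t = 2
    · exact htwo s t hst
    · exact hbig s t hp hst (h.resolve_right hst)
  have hall : ∀ s t : B, Pair M s t → (f s * f t) ^ (M s t) = if c s t = 1 then 1 else fq := by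
    intro s t hp
    rcases trichotomous_of WellOrderingRel s t with h | h | h
    · exact hgood s t hp (Or.inl h)
    · exact absurd h hp.1
    · have hp' : Pair M t s := ⟨hp.1.symm, by rw [M.symmetric]; exact hp.2⟩
      have h5 := hgood t s hp' (Or.inl h)
      have h6 : f s * f t = (f t * f s)⁻¹ := by
        rw [mul_inv_rev, inv_eq_of_mul_eq_one_left (hfsq s), inv_eq_of_mul_eq_one_left (hfsq t)]
      rw [h6, inv_pow, M.symmetric s t, h5, hc.symm s t hp]
      by_cases hcs : c t s = 1
      · rw [if_pos hcs, inv_one]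
      · rw [if_neg hcs, inv_eq_of_mul_eq_one_left hqsq]
  have hcomm : ∀ s, fq * f s = f s * fq := by
    intro s
    apply Equiv.ext
    rintro ⟨g, z⟩
    change (M.simple s * g, lm (-1) (X (KK M c) _ (lm (e s) z))) =
      (M.simple s * g, X (KK M c) _ (lm (e s) (lm (-1) z)))
    rw [X_lm, X_lm, X_lm, lm_lm, lm_lm, neg_one_mul, mul_neg_one]
    rfl
  let F : Option B → Equiv.Perm (M.Group × ((M.Group →₀ ZMod 2) × C)) := fun o => o.elim fq f
  have hF : ∀ r ∈ rels M c, FreeGroup.lift F r = 1 := by
    rintro r (⟨s, rfl⟩ | rfl | ⟨s, rfl⟩ | ⟨s, t, hp, hcs, rfl⟩ | ⟨s, t, hp, hcs, rfl⟩)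
    · rw [map_pow, FreeGroup.lift_apply_of, pow_two]; exact hfsq s
    · rw [map_pow, FreeGroup.lift_apply_of, pow_two]; exact hqsq
    · rw [map_mul, map_inv, map_mul, map_mul, FreeGroup.lift_apply_of, FreeGroup.lift_apply_of]
      change fq * f s * (f s * fq)⁻¹ = 1
      rw [hcomm, mul_inv_cancel]
    · rw [map_pow, map_mul, FreeGroup.lift_apply_of, FreeGroup.lift_apply_of]
      change (f s * f t) ^ (M s t) = 1
      rw [hall s t hp, if_pos hcs]
    · rw [map_mul, map_inv, map_pow, map_mul, FreeGroup.lift_apply_of, FreeGroup.lift_apply_of,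
        FreeGroup.lift_apply_of]
      change (f s * f t) ^ (M s t) * fq⁻¹ = 1
      rw [hall s t hp, hcs, if_neg (by decide), mul_inv_cancel]
  intro hq
  have h5 : (PresentedGroup.toGroup hF) (q M c) = fq := PresentedGroup.toGroup.of hF
  rw [hq, map_one] at h5
  have h6 := congrArg (fun E : Equiv.Perm (M.Group × ((M.Group →₀ ZMod 2) × C)) =>
    (E (1, 0, 1)).2.2) h5
  have h7 : (1 : C) = (-1) * 1 := h6
  rw [mul_one, eq_neg_iff_add_eq_zero] at h7
  exact h1 h7

theorem q_comm (M : CoxeterMatrix B) (c : B → B → ℤˣ) (x : W' M c) :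
    q M c * x = x * q M c := by
  have h : (⊤ : Subgroup (W' M c)) ≤ Subgroup.centralizer {q M c} := by
    rw [← PresentedGroup.closure_range_of (rels M c), Subgroup.closure_le]
    rintro _ ⟨o, rfl⟩
    rw [SetLike.mem_coe, Subgroup.mem_centralizer_singleton_iff]
    cases o with
    | none => rfl
    | some s =>
      have h1 : PresentedGroup.mk (rels M c) (of none * of (some s) * (of (some s) * of none)⁻¹)
          = 1 := PresentedGroup.one_of_mem (Or.inr (Or.inr (Or.inl ⟨s, rfl⟩)))
      rw [map_mul, map_inv, map_mul, map_mul, mul_inv_eq_one] at h1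
      exact h1.symm
  have h2 := h (Subgroup.mem_top x)
  rw [Subgroup.mem_centralizer_singleton_iff] at h2
  exact h2.symm

theorem ker_proj (M : CoxeterMatrix B) (c : B → B → ℤˣ) (x : W' M c)
    (hx : proj M c x = 1) : x = 1 ∨ x = q M c := by
  let N : Subgroup (W' M c) := Subgroup.zpowers (q M c)
  have : N.Normal := by
    refine ⟨fun n hn g => ?_⟩
    obtain ⟨k, rfl⟩ := Subgroup.mem_zpowers_iff.1 hn
    have h : g * q M c ^ k * g⁻¹ = q M c ^ k := by
      have h1 : Commute (q M c) g := q_comm M c g
      rw [(h1.zpow_left k).eq.symm, mul_assoc, mul_inv_cancel, mul_one]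
    rw [h]
    exact Subgroup.zpow_mem _ (Subgroup.mem_zpowers _) k
  have hrel : ∀ r ∈ rels M c, PresentedGroup.mk (rels M c) r = 1 :=
    fun r hr => PresentedGroup.one_of_mem hr
  have hqN : ((q M c : W' M c) : W' M c ⧸ N) = 1 :=
    (QuotientGroup.eq_one_iff _).2 (Subgroup.mem_zpowers _)
  let f : B → W' M c ⧸ N := fun s => ((PresentedGroup.of (some s) : W' M c) : W' M c ⧸ N)
  have hf : M.IsLiftable f := by
    intro s t
    by_cases h0 : M s t = 0
    · rw [h0, pow_zero]
    by_cases hst : s = t
    · subst hst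
      have h1 := hrel _ (Or.inl ⟨s, rfl⟩)
      rw [map_pow, pow_two] at h1
      rw [M.diagonal, pow_one]
      change (((PresentedGroup.of (some s) * PresentedGroup.of (some s) : W' M c)) :
        W' M c ⧸ N) = 1
      rw [QuotientGroup.eq_one_iff]
      have h2 : (PresentedGroup.of (some s) * PresentedGroup.of (some s) : W' M c) = 1 := h1
      rw [h2]
      exact N.one_mem
    · change ((((PresentedGroup.of (some s) * PresentedGroup.of (some t) : W' M c)) ^ (M s t) :
        W' M c) : W' M c ⧸ N) = 1
      rcases Int.units_eq_one_or (c s t) with hcs | hcs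
      · have h1 := hrel _ (Or.inr (Or.inr (Or.inr (Or.inl ⟨s, t, ⟨hst, h0⟩, hcs, rfl⟩))))
        rw [map_pow, map_mul] at h1
        have h2 : ((PresentedGroup.of (some s) * PresentedGroup.of (some t) : W' M c)) ^ (M s t)
          = 1 := h1
        rw [h2]; rfl
      · have h1 := hrel _ (Or.inr (Or.inr (Or.inr (Or.inr ⟨s, t, ⟨hst, h0⟩, hcs, rfl⟩))))
        rw [map_mul, map_inv, map_pow, map_mul, mul_inv_eq_one] at h1
        have h2 : ((PresentedGroup.of (some s) * PresentedGroup.of (some t) : W' M c)) ^ (M s t)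
          = q M c := h1
        rw [h2]; exact hqN
  let σ := M.toCoxeterSystem.lift ⟨f, hf⟩
  have hσ : ∀ s, σ (M.simple s) = f s := fun s => M.toCoxeterSystem.lift_apply_simple hf s
  have hcomp : σ.comp (proj M c) = QuotientGroup.mk' N := by
    apply PresentedGroup.ext
    intro o
    cases o with
    | none =>
      have h1 : proj M c (PresentedGroup.of none) = 1 := PresentedGroup.toGroup.of _
      change σ (proj M c (PresentedGroup.of none)) = ((q M c : W' M c) : W' M c ⧸ N)
      rw [h1, map_one, hqN]
    | some s =>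
      have h1 : proj M c (PresentedGroup.of (some s)) = M.simple s := PresentedGroup.toGroup.of _
      change σ (proj M c (PresentedGroup.of (some s))) = f s
      rw [h1, hσ]
  have h1 : ((x : W' M c) : W' M c ⧸ N) = 1 := by
    have := DFunLike.congr_fun hcomp x
    change σ (proj M c x) = (x : W' M c ⧸ N) at this
    rw [← this, hx, map_one]
  rw [QuotientGroup.eq_one_iff] at h1
  obtain ⟨k, rfl⟩ := Subgroup.mem_zpowers_iff.1 h1
  have hq2 : q M c ^ (2 : ℤ) = 1 := by
    have := q_sq M c
    exact_mod_cast this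
  rcases Int.even_or_odd' k with ⟨j, rfl | rfl⟩
  · left; rw [zpow_mul, hq2, one_zpow]
  · right; rw [zpow_add, zpow_mul, hq2, one_zpow, one_mul, zpow_one]

/-- For every Coxeter group `(W, S)` and every sign choice `c`, the sequence
`1 → ℤ/2 → W' → W → 1` is exact; in particular `q ≠ 1` in `W'` and `ker π = {1, q}` has
exactly two elements. -/
theorem result (B : Type) (M : CoxeterMatrix B) (c : B → B → ℤˣ) (hc : IsSignChoice M c) :
    Function.Injective (incl M c) ∧ (incl M c).range = (proj M c).ker ∧
    Function.Surjective (proj M c) ∧ q M c ≠ 1 ∧ Nat.card (proj M c).ker = 2 := by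
  have hq := q_ne_one M c hc
  have hinj : Function.Injective (incl M c) := by
    rw [injective_iff_map_eq_one]
    intro x hx
    have h : ∀ y : ZMod 2, y = 0 ∨ y = 1 := by decide
    rcases h (Multiplicative.toAdd x) with h | h
    · exact h
    · exfalso
      apply hq
      have h1 : q M c ^ (Multiplicative.toAdd x).val = 1 := hx
      rw [h] at h1
      have h2 : (1 : ZMod 2).val = 1 := rfl
      rwa [h2, pow_one] at h1
  have hrange : (incl M c).range = (proj M c).ker := by
    ext x
    rw [MonoidHom.mem_range, MonoidHom.mem_ker]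
    constructor
    · rintro ⟨y, rfl⟩
      change proj M c (q M c ^ _) = 1
      have h1 : proj M c (q M c) = 1 := PresentedGroup.toGroup.of _
      rw [map_pow, h1, one_pow]
    · intro hx
      rcases ker_proj M c x hx with rfl | rfl
      · exact ⟨1, map_one _⟩
      · refine ⟨Multiplicative.ofAdd 1, ?_⟩
        change q M c ^ (1 : ZMod 2).val = q M c
        have h2 : (1 : ZMod 2).val = 1 := rfl
        rw [h2, pow_one]
  refine ⟨hinj, hrange, ?_, hq, ?_⟩
  · rw [← MonoidHom.range_eq_top, eq_top_iff]
    have h := M.toCoxeterSystem.subgroup_closure_range_simple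
    rw [← h, Subgroup.closure_le]
    rintro _ ⟨s, rfl⟩
    exact ⟨PresentedGroup.of (some s), PresentedGroup.toGroup.of _⟩
  · rw [← hrange]
    have h1 := Nat.card_congr (MonoidHom.ofInjective hinj).toEquiv
    rw [← h1]
    simp

end Pool.Agent.Results.MP_07fa45_al.SignExtensionExact
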